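import Pool.Agent.H2.V.Stm

/-!
# The module ALT of the project V: a balanced alternating form extends to powers
-/

set_option autoImplicit false
set_option linter.all false

namespace Pool.Agent.H23.V

section

variable {H : Type} [AddCommGroup H] [Module ℚ H] {K : Type} [Field K] [Algebra ℚ K]
  (ρ : K →ₐ[ℚ] Module.End ℚ H) {n : ℕ} (w : H [⋀^Fin (n + 1)]→ₗ[ℚ] ℚ)

/-- balanced -/
def Bal : Prop := ∀ (a : K) (v : Fin (n + 1) → H) (l m : Fin (n + 1)),
  w (Function.update v l (ρ a (v l))) = w (Function.update v m (ρ a (v m)))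

variable {ρ w}

lemma move (hw : Bal ρ w) (a : Fin (n + 1) → K) (u : Fin (n + 1) → H) (l m : Fin (n + 1))
    (hlm : l ≠ m) : w (fun j => ρ (a j) (u j)) =
      w (fun j => ρ (Function.update (Function.update a l 1) m (a m * a l) j) (u j)) := by
  have h := hw (a l) (fun j => ρ (Function.update a l 1 j) (u j)) l m
  have e1 : Function.update (fun j => ρ (Function.update a l 1 j) (u j)) l
      (ρ (a l) (ρ (Function.update a l 1 l) (u l))) = fun j => ρ (a j) (u j) := by
    funext j
    by_cases hj : j = l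
    · subst hj
      simp
    · simp [Function.update_of_ne hj]
  have e2 : Function.update (fun j => ρ (Function.update a l 1 j) (u j)) m
      (ρ (a l) (ρ (Function.update a l 1 m) (u m))) =
      fun j => ρ (Function.update (Function.update a l 1) m (a m * a l) j) (u j) := by
    funext j
    by_cases hj : j = m
    · subst hj
      simp [Function.update_of_ne hlm.symm, mul_comm (a j), map_mul]
    · simp [Function.update_of_ne hj]
  rw [← e1, ← e2]
  exact h

lemma gather (hw : Bal ρ w) (a : Fin (n + 1) → K) (u : Fin (n + 1) → H)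
    (s : Finset (Fin (n + 1))) (hs : (0 : Fin (n + 1)) ∉ s) : w (fun j => ρ (a j) (u j)) =
      w (fun j => ρ (if j ∈ s then 1 else if j = 0 then a 0 * ∏ t ∈ s, a t else a j) (u j)) := by
  induction s using Finset.induction_on with
  | empty =>
    congr 1
    funext j
    by_cases hj : j = 0
    · subst hj
      simp
    · simp [hj]
  | insert m s hm ih =>
    have hm0 : m ≠ 0 := fun h => hs (h ▸ Finset.mem_insert_self m s)
    have hs0 : (0 : Fin (n + 1)) ∉ s := fun h => hs (Finset.mem_insert_of_mem h)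
    rw [ih hs0, move hw _ u m 0 hm0]
    congr 1
    funext j
    congr 2
    by_cases hj : j = 0
    · subst hj
      rw [Function.update_self, if_neg hs0, if_pos rfl, if_neg hm, if_neg hm0, if_neg hs,
        if_pos rfl, Finset.prod_insert hm]
      ring
    · rw [Function.update_of_ne hj]
      by_cases hjm : j = m
      · subst hjm
        rw [Function.update_self, if_pos (Finset.mem_insert_self j s)]
      · rw [Function.update_of_ne hjm]
        by_cases hjs : j ∈ s
        · rw [if_pos hjs, if_pos (Finset.mem_insert_of_mem hjs)]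
        · rw [if_neg hjs, if_neg hj, if_neg (by
            rw [Finset.mem_insert]
            rintro (h | h)
            · exact hjm h
            · exact hjs h), if_neg hj]

variable (ρ w)

/-- the form with one scalar -/
def G (c : K) (u : Fin (n + 1) → H) : ℚ := w (fun j => ρ (if j = 0 then c else 1) (u j))

variable {ρ w}

lemma GF (hw : Bal ρ w) (a : Fin (n + 1) → K) (u : Fin (n + 1) → H) :
    w (fun j => ρ (a j) (u j)) = G ρ w (∏ j, a j) u := by
  rw [gather hw a u (Finset.univ.erase 0) (Finset.notMem_erase _ _)]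
  unfold G
  congr 1
  funext j
  congr 2
  by_cases hj : j = 0
  · subst hj
    rw [if_neg (Finset.notMem_erase _ _), if_pos rfl, if_pos rfl,
      Finset.mul_prod_erase _ _ (Finset.mem_univ _)]
  · rw [if_pos (Finset.mem_erase.2 ⟨hj, Finset.mem_univ _⟩), if_neg hj]

lemma G_perm (hw : Bal ρ w) (c : K) (u : Fin (n + 1) → H) (σ : Equiv.Perm (Fin (n + 1))) :
    G ρ w c (u ∘ σ) = (Equiv.Perm.sign σ : ℤ) * G ρ w c u := by
  have e : (fun j => ρ (if j = 0 then c else 1) ((u ∘ σ) j)) =
      (fun j => ρ (if σ.symm j = 0 then c else 1) (u j)) ∘ σ := by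
    funext j
    simp
  have e2 : ∏ j, (if σ.symm j = 0 then c else 1) = c := by
    rw [Equiv.prod_comp σ.symm (fun j => if j = 0 then c else 1)]
    simp
  unfold G
  rw [e, AlternatingMap.map_perm, GF hw, e2]
  unfold G
  rw [Units.smul_def, zsmul_eq_mul]

end

section main

variable {H : Type} [AddCommGroup H] [Module ℚ H] {K : Type} [Field K] [Algebra ℚ K]
  (ρ : K →ₐ[ℚ] Module.End ℚ H) (k' : ℕ) (x : K) {n : ℕ} (w : H [⋀^Fin (n + 1)]→ₗ[ℚ] ℚ)

/-- the trace form -/
def tau (s : ℕ) : K := if k' + 1 ∣ s then x ^ (s / (k' + 1)) else 0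

/-- the scalars -/
def aa (i : Fin (n + 1) → Fin (k' + 1)) (l : Fin (n + 1)) : K :=
  if l = 0 then tau k' x (∑ j, (i j : ℕ)) else 1

lemma prod_aa (i : Fin (n + 1) → Fin (k' + 1)) : ∏ l, aa k' x i l = tau k' x (∑ j, (i j : ℕ)) := by
  unfold aa
  simp

/-- one summand -/
def M (i : Fin (n + 1) → Fin (k' + 1)) :
    MultilinearMap ℚ (fun _ : Fin (n + 1) => Fin (k' + 1) → H) ℚ :=
  w.toMultilinearMap.compLinearMap (fun l => (ρ (aa k' x i l)) ∘ₗ LinearMap.proj (i l))

lemma M_apply (i : Fin (n + 1) → Fin (k' + 1)) (v : Fin (n + 1) → Fin (k' + 1) → H) :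
    M ρ k' x w i v = w (fun l => ρ (aa k' x i l) (v l (i l))) := rfl

variable {w}

lemma M_G (hw : Bal ρ w) (i : Fin (n + 1) → Fin (k' + 1)) (v : Fin (n + 1) → Fin (k' + 1) → H) :
    M ρ k' x w i v = G ρ w (tau k' x (∑ j, (i j : ℕ))) (fun l => v l (i l)) := by
  rw [M_apply, GF hw (aa k' x i) (fun l => v l (i l)), prod_aa]

/-- the extension -/
def wext (hw : Bal ρ w) : (Fin (k' + 1) → H) [⋀^Fin (n + 1)]→ₗ[ℚ] ℚ :=
  { (∑ i : Fin (n + 1) → Fin (k' + 1), M ρ k' x w i) with
    map_eq_zero_of_eq' := by
      intro v l l' hv hll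
      show (∑ i : Fin (n + 1) → Fin (k' + 1), M ρ k' x w i) v = 0
      rw [MultilinearMap.sum_apply]
      have h1 : ∑ i : Fin (n + 1) → Fin (k' + 1), M ρ k' x w i v =
          - ∑ i : Fin (n + 1) → Fin (k' + 1), M ρ k' x w i v := by
        conv_lhs => rw [← Equiv.sum_comp ((Equiv.swap l l').arrowCongr (Equiv.refl (Fin (k' + 1))))]
        rw [← Finset.sum_neg_distrib]
        refine Finset.sum_congr rfl fun i _ => ?_
        rw [M_G ρ k' x hw, M_G ρ k' x hw]
        have e1 : ∑ j, (((Equiv.swap l l').arrowCongr (Equiv.refl (Fin (k' + 1))) i j : Fin (k' + 1)) : ℕ) =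
            ∑ j, (i j : ℕ) := by
          have := Equiv.sum_comp (Equiv.swap l l') (fun j => (i j : ℕ))
          rw [← this]
          rfl
        have e2 : (fun j => v j ((Equiv.swap l l').arrowCongr (Equiv.refl (Fin (k' + 1))) i j)) =
            (fun j => v j (i j)) ∘ (Equiv.swap l l') := by
          funext j
          have h2 : v (Equiv.swap l l' j) = v j := by
            by_cases hj : j = l
            · rw [hj, Equiv.swap_apply_left, hv]
            · by_cases hj' : j = l'
              · rw [hj', Equiv.swap_apply_right, hv]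
              · rw [Equiv.swap_apply_of_ne_of_ne hj hj']
          show v j (i (Equiv.swap l l' j)) = v (Equiv.swap l l' j) (i (Equiv.swap l l' j))
          rw [h2]
        rw [e1, e2, G_perm hw, Equiv.Perm.sign_swap hll]
        simp
      linarith }

lemma wext_apply (hw : Bal ρ w) (v : Fin (n + 1) → Fin (k' + 1) → H) :
    wext ρ k' x hw v = ∑ i : Fin (n + 1) → Fin (k' + 1), w (fun l => ρ (aa k' x i l) (v l (i l))) := by
  show (∑ i : Fin (n + 1) → Fin (k' + 1), M ρ k' x w i) v = _
  rw [MultilinearMap.sum_apply]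
  rfl

lemma wext_G (hw : Bal ρ w) (v : Fin (n + 1) → Fin (k' + 1) → H) :
    wext ρ k' x hw v = ∑ i : Fin (n + 1) → Fin (k' + 1),
      G ρ w (tau k' x (∑ j, (i j : ℕ))) (fun l => v l (i l)) := by
  show (∑ i : Fin (n + 1) → Fin (k' + 1), M ρ k' x w i) v = _
  rw [MultilinearMap.sum_apply]
  exact Finset.sum_congr rfl fun i _ => M_G ρ k' x hw i v

/-- a scalar in one more slot -/
lemma G_upd (hw : Bal ρ w) (c b : K) (u : Fin (n + 1) → H) (l : Fin (n + 1)) :
    G ρ w c (Function.update u l (ρ b (u l))) = G ρ w (c * b) u := by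
  have e : (fun j => ρ (if j = 0 then c else 1) (Function.update u l (ρ b (u l)) j)) =
      fun j => ρ ((if j = 0 then c else 1) * (if j = l then b else 1)) (u j) := by
    funext j
    by_cases hj : j = l
    · subst hj
      rw [Function.update_self, if_pos rfl, map_mul]
      rfl
    · rw [Function.update_of_ne hj, if_neg hj, mul_one]
  unfold G
  rw [e, GF hw (fun j => (if j = 0 then c else 1) * (if j = l then b else 1)) u,
    Finset.prod_mul_distrib]
  simp [G]

lemma wext_diag (hw : Bal ρ w) (a : K) (v : Fin (n + 1) → Fin (k' + 1) → H) (l : Fin (n + 1)) :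
    wext ρ k' x hw (Function.update v l (fun i => ρ a (v l i))) =
      ∑ i : Fin (n + 1) → Fin (k' + 1),
        G ρ w (tau k' x (∑ j, (i j : ℕ)) * a) (fun l => v l (i l)) := by
  rw [wext_G]
  refine Finset.sum_congr rfl fun i _ => ?_
  rw [← G_upd ρ hw _ _ _ l]
  congr 1
  funext j
  by_cases hj : j = l
  · subst hj
    rw [Function.update_self, Function.update_self]
  · rw [Function.update_of_ne hj, Function.update_of_ne hj]

/-- the cyclic shift of one index -/
def rot (l : Fin (n + 1)) : (Fin (n + 1) → Fin (k' + 1)) ≃ (Fin (n + 1) → Fin (k' + 1)) :=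
  Equiv.piCongrRight fun j => if j = l then finRotate (k' + 1) else Equiv.refl _

lemma rot_self (l : Fin (n + 1)) (i : Fin (n + 1) → Fin (k' + 1)) :
    rot k' l i l = finRotate (k' + 1) (i l) := by
  simp [rot]

lemma rot_ne {l j : Fin (n + 1)} (h : j ≠ l) (i : Fin (n + 1) → Fin (k' + 1)) :
    rot k' l i j = i j := by
  simp [rot, h]

lemma rot_sum (l : Fin (n + 1)) (i : Fin (n + 1) → Fin (k' + 1)) :
    tau k' x (∑ j, (rot k' l i j : ℕ)) * (if i l = Fin.last k' then x else 1) =
      tau k' x (∑ j, (i j : ℕ) + 1) := by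
  have h1 : ∑ j, (rot k' l i j : ℕ) = (finRotate (k' + 1) (i l) : ℕ) +
      ∑ j ∈ Finset.univ.erase l, (i j : ℕ) := by
    rw [← Finset.add_sum_erase _ _ (Finset.mem_univ l), rot_self]
    congr 1
    exact Finset.sum_congr rfl fun j hj => by rw [rot_ne k' (Finset.ne_of_mem_erase hj)]
  have h2 : ∑ j, (i j : ℕ) = (i l : ℕ) + ∑ j ∈ Finset.univ.erase l, (i j : ℕ) :=
    (Finset.add_sum_erase _ _ (Finset.mem_univ l)).symm
  by_cases h : i l = Fin.last k'
  · rw [if_pos h]
    rw [h, finRotate_last, Fin.val_zero, zero_add] at h1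
    rw [h, Fin.val_last] at h2
    rw [h1, h2]
    set s := ∑ j ∈ Finset.univ.erase l, (i j : ℕ) with hs
    have e : k' + s + 1 = s + (k' + 1) := by ring
    rw [e]
    unfold tau
    by_cases hd : k' + 1 ∣ s
    · rw [if_pos hd, if_pos (Dvd.dvd.add hd dvd_rfl), Nat.add_div_right _ (Nat.succ_pos k'),
        pow_succ]
    · rw [if_neg hd, if_neg (fun h => hd ((Nat.dvd_add_left dvd_rfl).1 h)), zero_mul]
  · rw [if_neg h, mul_one, h1, h2, coe_finRotate_of_ne_last h]
    congr 1
    ring

lemma wext_shift (hw : Bal ρ w) (v : Fin (n + 1) → Fin (k' + 1) → H) (l : Fin (n + 1))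
    (T : Fin (k' + 1) → H) (hT : ∀ i : Fin (k' + 1), T (finRotate (k' + 1) i) =
      ρ (if i = Fin.last k' then x else 1) (v l i)) :
    wext ρ k' x hw (Function.update v l T) =
      ∑ i : Fin (n + 1) → Fin (k' + 1),
        G ρ w (tau k' x (∑ j, (i j : ℕ) + 1)) (fun l => v l (i l)) := by
  rw [wext_G, ← Equiv.sum_comp (rot k' l)]
  refine Finset.sum_congr rfl fun i _ => ?_
  rw [← rot_sum k' x l i, ← G_upd ρ hw _ _ _ l]
  congr 1
  funext j
  by_cases hj : j = l
  · subst hj
    rw [Function.update_self, Function.update_self, rot_self, hT]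
  · rw [Function.update_of_ne hj, Function.update_of_ne hj, rot_ne k' hj]

end main

theorem alt : Pool.Agent.H2.V.S_ALT := by
  intro H _ _ _ K _ _ ρ k n x w hk hw
  obtain ⟨k', rfl⟩ : ∃ k', k = k' + 1 := ⟨k - 1, by omega⟩
  rcases n with _ | n
  · refine ⟨AlternatingMap.constOfIsEmpty ℚ (Fin (k' + 1) → H) (Fin 0) (w 0), fun v => ?_,
      ⟨1, fun _ l => l.elim0, fun _ l => l.elim0, fun v => ?_⟩, fun a v l => l.elim0,
      fun v l => l.elim0⟩
    · rw [AlternatingMap.constOfIsEmpty_apply]
      exact congrArg w (Subsingleton.elim _ _)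
    · rw [AlternatingMap.constOfIsEmpty_apply, Fin.sum_univ_one]
      exact congrArg w (Subsingleton.elim _ _)
  · have hB : Bal ρ w := hw
    refine ⟨wext ρ k' x hB, fun v => ?_, ?_, fun a v l m => ?_, fun v l m => ?_⟩
    · rw [wext_apply, Finset.sum_eq_single (fun _ => (0 : Fin (k' + 1)))]
      · congr 1
        funext l
        have e : aa k' x (fun _ : Fin (n + 1) => (0 : Fin (k' + 1))) l = 1 := by
          unfold aa tau
          simp
        rw [e, map_one]
        rfl
      · intro i _ hi
        obtain ⟨l, hl⟩ : ∃ l, i l ≠ 0 := by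
          by_contra h
          push Not at h
          exact hi (funext h)
        refine w.map_coord_zero l ?_
        have h2 : ((i l : Fin (k' + 1)) : ℕ) ≠ 0 := fun h => hl (Fin.ext h)
        show ρ (aa k' x i l) (if ((i l : Fin (k' + 1)) : ℕ) = 0 then v l else 0) = 0
        rw [if_neg h2, map_zero]
      · intro h
        exact absurd (Finset.mem_univ _) h
    · refine ⟨Fintype.card (Fin (n + 1) → Fin (k' + 1)),
        fun m => (Fintype.equivFin (Fin (n + 1) → Fin (k' + 1))).symm m,
        fun m => aa k' x ((Fintype.equivFin (Fin (n + 1) → Fin (k' + 1))).symm m), fun v => ?_⟩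
      rw [wext_apply]
      exact (Equiv.sum_comp (Fintype.equivFin (Fin (n + 1) → Fin (k' + 1))).symm
        (fun i => w (fun l => ρ (aa k' x i l) (v l (i l))))).symm
    · rw [wext_diag, wext_diag]
    · have key : ∀ l : Fin (n + 1), wext ρ k' x hB (Function.update v l
          (fun i : Fin (k' + 1) => if (i : ℕ) = 0 then
            ρ x (v l ⟨k' + 1 - 1, by have := i.2; omega⟩)
              else v l ⟨(i : ℕ) - 1, by have := i.2; omega⟩)) =
          ∑ i : Fin (n + 1) → Fin (k' + 1),
            G ρ w (tau k' x (∑ j, (i j : ℕ) + 1)) (fun l => v l (i l)) := by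
        intro l
        refine wext_shift ρ k' x hB v l _ fun i => ?_
        by_cases h : i = Fin.last k'
        · rw [if_pos h]
          have h1 : ((finRotate (k' + 1) i : Fin (k' + 1)) : ℕ) = 0 := by
            rw [h, finRotate_last]
            rfl
          rw [if_pos h1, h]
          rfl
        · rw [if_neg h, map_one]
          have h1 : ((finRotate (k' + 1) i : Fin (k' + 1)) : ℕ) = (i : ℕ) + 1 :=
            coe_finRotate_of_ne_last h
          rw [if_neg (by omega)]
          show v l _ = v l i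
          congr 1
          apply Fin.ext
          show ((finRotate (k' + 1) i : Fin (k' + 1)) : ℕ) - 1 = (i : ℕ)
          omega
      rw [key, key]

end Pool.Agent.H23.V
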